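import Pool.Agent.Helper76.SGA.Goals

/-!
# Project SG, packet SGA-FAC: choice of an irreducible factor
-/

set_option autoImplicit false

open MvPolynomial

namespace Pool.Agent.Helper24.SGA

open Pool.Agent.Helper92.Ru Pool.Agent.Helper42.SG

theorem log_PH_nonneg {k : Type} [Field k] [NumberField k] {σ : Type} (p : MvPolynomial σ k) :
    0 ≤ Real.log (PH p) :=
  Real.log_nonneg (Height.one_le_mulHeight _)

/-- Factorization of a nonzero polynomial in a unit and irreducible factors. -/
theorem exists_fac {k : Type} [Field k] {m : ℕ} (p : MvPolynomial (Fin m) k) (hp : p ≠ 0) :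
    ∃ (n : ℕ) (f : Option (Fin n) → MvPolynomial (Fin m) k), IsUnit (f none) ∧
      (∀ i, Irreducible (f (some i))) ∧ ∏ i ∈ Finset.univ, f i = p := by
  obtain ⟨s, hs, u, hu⟩ := WfDvdMonoid.exists_factors p hp
  refine ⟨s.toList.length, fun o => o.elim (u : MvPolynomial (Fin m) k) fun i => s.toList[i.1],
    u.isUnit, fun i => ?_, ?_⟩
  · exact hs _ (Multiset.mem_toList.1 (List.getElem_mem i.2))
  · rw [Fintype.prod_option]
    show (u : MvPolynomial (Fin m) k) * ∏ i : Fin s.toList.length, s.toList[i.1] = p
    rw [Fin.prod_univ_getElem, Multiset.prod_toList, mul_comm, hu]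

/-- The index of a unit is not positive. -/
theorem ind_unit {k : Type} [Field k] {m : ℕ} (r : Fin m → ℕ) (ξ : Fin m → k) (a : ℝ)
    (u : MvPolynomial (Fin m) k) (hu : IsUnit u) (h : IndGe r ξ a u) : a ≤ 0 := by
  have h1 : IsUnit (constantCoeff (shiftP ξ u)) := (hu.map (shiftP ξ)).map constantCoeff
  have h2 : (0 : Fin m →₀ ℕ) ∈ (shiftP ξ u).support := by
    rw [mem_support_iff]
    exact h1.ne_zero
  have h3 := h 0 h2
  refine h3.trans (le_of_eq (Finset.sum_eq_zero fun i _ => ?_))
  rw [Finsupp.zero_apply, Nat.cast_zero, zero_div]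

theorem fac (h1 : GEL) (h2 : INDM) : FAC := by
  intro k _ _ m σ hσ
  obtain ⟨Ck, hCk, hgel⟩ := h1 k m
  set M : ℝ := (m : ℝ) + 1 with hM
  have hm0 : (0 : ℝ) ≤ m := Nat.cast_nonneg m
  have hM1 : 1 ≤ M := by linarith
  have hM0 : 0 < M := by linarith
  have hD0 : 0 < 1 + Ck * M := by positivity
  refine ⟨1 + Ck * M, σ / (4 * M), by nlinarith, by positivity, ?_⟩
  intro r ξ H W p hr hinv
  obtain ⟨hp, hW, hdeg, hlog, hind⟩ := hinv
  rcases Nat.eq_zero_or_pos m with hm | hm
  · exfalso
    subst hm
    have hu : IsUnit p := by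
      have h3 := MvPolynomial.eq_C_of_isEmpty p
      rw [h3]
      refine IsUnit.map _ (Ne.isUnit fun h4 => hp ?_)
      rw [h3, h4, C_0]
    have h4 := ind_unit r ξ (σ * W) p hu hind
    have h5 : 0 < σ * W := mul_pos hσ hW
    linarith
  · have hH1 : 1 ≤ H := by
      have h3 := hr ⟨0, hm⟩
      have h4 : (1 : ℝ) ≤ r ⟨0, hm⟩ := by exact_mod_cast h3.1
      linarith [h3.2]
    have hH0 : 0 < H := by linarith
    obtain ⟨n, f, hfu, hfi, hfp⟩ := exists_fac p hp
    have hf0 : ∀ i ∈ (Finset.univ : Finset (Option (Fin n))), f i ≠ 0 := by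
      intro i _
      rcases i with _ | i
      · exact hfu.ne_zero
      · exact (hfi i).ne_zero
    have hg := hgel (Option (Fin n)) Finset.univ f hf0
    rw [hfp] at hg
    obtain ⟨a, ha, hsum⟩ := h2 k m r ξ (σ * W) (Option (Fin n)) Finset.univ f hf0
      (by rw [hfp]; exact hind)
    -- the weights
    set w : Option (Fin n) → ℝ := fun i => ∑ h, ((f i).degreeOf h : ℝ) / r h with hw
    have hrpos : ∀ h, (0 : ℝ) < r h := fun h => by
      have := (hr h).1
      exact_mod_cast this
    have hw0 : ∀ i, 0 ≤ w i := fun i => Finset.sum_nonneg fun h _ => by positivity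
    have hsw : ∑ i, w i ≤ M * W := by
      have e1 : ∑ i, w i = ∑ h, (p.degreeOf h : ℝ) / r h := by
        rw [hw, Finset.sum_comm]
        refine Finset.sum_congr rfl fun h _ => ?_
        rw [← Finset.sum_div, ← hfp, degreeOf_prod_eq _ _ hf0, Nat.cast_sum]
      rw [e1]
      have e2 : ∑ h : Fin m, (p.degreeOf h : ℝ) / r h ≤ ∑ _h : Fin m, W := by
        refine Finset.sum_le_sum fun h _ => ?_
        rw [div_le_iff₀ (hrpos h), mul_comm]
        exact hdeg h
      refine e2.trans ?_
      rw [Finset.sum_const, Finset.card_univ, Fintype.card_fin, nsmul_eq_mul]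
      exact mul_le_mul_of_nonneg_right (by linarith) hW.le
    have hsl : ∑ i, Real.log (PH (f i)) ≤ (1 + Ck * M) * H * W := by
      refine hg.trans ?_
      have e2 : ∑ h : Fin m, (p.degreeOf h : ℝ) ≤ ∑ _h : Fin m, H * W := by
        refine Finset.sum_le_sum fun h _ => (hdeg h).trans ?_
        exact mul_le_mul_of_nonneg_right (hr h).2 hW.le
      rw [Finset.sum_const, Finset.card_univ, Fintype.card_fin, nsmul_eq_mul] at e2
      have e3 : Ck * ∑ h : Fin m, (p.degreeOf h : ℝ) ≤ Ck * (M * (H * W)) := by
        refine mul_le_mul_of_nonneg_left (e2.trans ?_) hCk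
        exact mul_le_mul_of_nonneg_right (by linarith) (by positivity)
      calc _ ≤ H * W + Ck * (M * (H * W)) := add_le_add hlog e3
        _ = _ := by ring
    -- the choice of the factor
    have key : ∃ i, 0 < a i ∧ σ / (4 * M) * w i +
        σ / (4 * (1 + Ck * M) * H) * Real.log (PH (f i)) ≤ a i := by
      by_contra hcon
      push Not at hcon
      have h3 : ∀ i, a i ≤ σ / (4 * M) * w i +
          σ / (4 * (1 + Ck * M) * H) * Real.log (PH (f i)) := by
        intro i
        rcases lt_or_ge 0 (a i) with h4 | h4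
        · exact (hcon i h4).le
        · refine h4.trans ?_
          have h5 := hw0 i
          have h6 := log_PH_nonneg (f i)
          positivity
      have h4 : ∑ i, a i ≤ σ / (4 * M) * ∑ i, w i +
          σ / (4 * (1 + Ck * M) * H) * ∑ i, Real.log (PH (f i)) := by
        rw [Finset.mul_sum, Finset.mul_sum, ← Finset.sum_add_distrib]
        exact Finset.sum_le_sum fun i _ => h3 i
      have h5 : σ / (4 * M) * ∑ i, w i ≤ σ * W / 4 := by
        calc _ ≤ σ / (4 * M) * (M * W) := mul_le_mul_of_nonneg_left hsw (by positivity)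
          _ = σ * W / 4 := by field_simp
      have h6 : σ / (4 * (1 + Ck * M) * H) * ∑ i, Real.log (PH (f i)) ≤ σ * W / 4 := by
        calc _ ≤ σ / (4 * (1 + Ck * M) * H) * ((1 + Ck * M) * H * W) :=
              mul_le_mul_of_nonneg_left hsl (by positivity)
          _ = σ * W / 4 := by field_simp
      have h7 : 0 < σ * W := mul_pos hσ hW
      linarith
    obtain ⟨i, hai, hi⟩ := key
    have hai' := ha i (Finset.mem_univ i)
    rcases i with _ | i
    · exfalso
      have := ind_unit r ξ (a none) (f none) hfu hai'.2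
      linarith
    · have hwi := hw0 (some i)
      have hli := log_PH_nonneg (f (some i))
      have hW' : 0 < 4 * M / σ * a (some i) := by positivity
      refine ⟨f (some i), 4 * M / σ * a (some i), hfi i, (hfi i).ne_zero, hW', ?_, ?_, ?_⟩
      · intro h
        have h3 : ((f (some i)).degreeOf h : ℝ) / r h ≤ w (some i) :=
          Finset.single_le_sum (f := fun h => ((f (some i)).degreeOf h : ℝ) / r h)
            (fun h _ => by positivity) (Finset.mem_univ h)
        have h4 : σ / (4 * M) * w (some i) ≤ a (some i) := by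
          have : 0 ≤ σ / (4 * (1 + Ck * M) * H) * Real.log (PH (f (some i))) := by positivity
          linarith
        have h5 : w (some i) ≤ 4 * M / σ * a (some i) := by
          calc w (some i) = 4 * M / σ * (σ / (4 * M) * w (some i)) := by field_simp
            _ ≤ _ := mul_le_mul_of_nonneg_left h4 (by positivity)
        have h6 := h3.trans h5
        rwa [div_le_iff₀ (hrpos h), mul_comm] at h6
      · have h4 : σ / (4 * (1 + Ck * M) * H) * Real.log (PH (f (some i))) ≤ a (some i) := by
          have : 0 ≤ σ / (4 * M) * w (some i) := by positivity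
          linarith
        have h5 : Real.log (PH (f (some i))) ≤ 4 * (1 + Ck * M) * H / σ * a (some i) := by
          calc Real.log (PH (f (some i))) = 4 * (1 + Ck * M) * H / σ *
                (σ / (4 * (1 + Ck * M) * H) * Real.log (PH (f (some i)))) := by field_simp
            _ ≤ _ := mul_le_mul_of_nonneg_left h4 (by positivity)
        refine h5.trans ?_
        have h6 : 4 * (1 + Ck * M) * H / σ * a (some i) * 1 ≤
            4 * (1 + Ck * M) * H / σ * a (some i) * M :=
          mul_le_mul_of_nonneg_left hM1 (by positivity)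
        calc _ ≤ 4 * (1 + Ck * M) * H / σ * a (some i) * M := by linarith
          _ = _ := by ring
      · have h3 : σ / (4 * M) * (4 * M / σ * a (some i)) = a (some i) := by field_simp
        rw [h3]
        exact hai'.2

end Pool.Agent.Helper24.SGA
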